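import Mathlib

set_option maxHeartbeats 400000

open Finset

namespace Pool.Agent.Results.MP_054fa1_nt.Lower

/-- `a(n) = Im ∏_{k=0}^{n} (1 + k i)`, computed in the Gaussian integers. -/
def a (n : ℕ) : ℤ := (∏ k ∈ range (n + 1), (⟨1, k⟩ : GaussianInt)).im

theorem hensel (p : ℕ) (hp : p.Prime) (h4 : p % 4 = 1) (e : ℕ) :
    ∃ r : ℤ, (p : ℤ) ^ (e + 1) ∣ r ^ 2 + 1 := by
  haveI := Fact.mk hp
  induction e with
  | zero =>
    obtain ⟨y, hy⟩ := ZMod.exists_sq_eq_neg_one_iff.2 (show p % 4 ≠ 3 by omega)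
    refine ⟨(y.val : ℤ), ?_⟩
    rw [zero_add, pow_one, ← ZMod.intCast_zmod_eq_zero_iff_dvd]
    push_cast
    rw [ZMod.natCast_zmod_val, sq, ← hy]
    ring
  | succ e ih =>
    obtain ⟨r, t, ht⟩ := ih
    obtain ⟨h, hh⟩ : ∃ h : ℤ, (p : ℤ) + 1 = 2 * h := ⟨(p + 1) / 2, by omega⟩
    refine ⟨r + h * r * t * p ^ (e + 1), r ^ 2 * t + t ^ 2 * p ^ e + h ^ 2 * r ^ 2 * t ^ 2 * p ^ e, ?_⟩
    linear_combination (1 + t * p ^ (e + 1)) * ht - (r ^ 2 * t * p ^ (e + 1)) * hh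

theorem lift_zero (M n : ℕ) [NeZero M] (hM : M ∣ n.factorial) (r : ZMod M) (hr : r * r = -1) :
    ((∏ k ∈ range (n + 1), (⟨1, k⟩ : GaussianInt)).re : ZMod M) + (a n : ZMod M) * r = 0 := by
  let φ : GaussianInt →+* ZMod M := Zsqrtd.lift ⟨r, by simpa using hr⟩
  have h1 : ∀ z : GaussianInt, φ z = z.re + z.im * r := fun z => rfl
  rw [a, ← h1, map_prod, prod_range_succ']
  have h2 : ∀ k : ℕ, φ ⟨1, ((k + 1 : ℕ) : ℤ)⟩ = r * (((-r).val + 1 + k : ℕ) : ZMod M) := by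
    intro k
    rw [h1]
    push_cast
    rw [ZMod.natCast_zmod_val]
    linear_combination hr
  simp only [h2]
  rw [prod_mul_distrib, ← Nat.cast_prod, ← Nat.ascFactorial_eq_prod_range,
    (ZMod.natCast_eq_zero_iff _ _).2 (hM.trans (Nat.factorial_dvd_ascFactorial _ _)), mul_zero,
    zero_mul]

theorem result (p : ℕ) (hp : p.Prime) (h4 : p % 4 = 1) (n : ℕ) :
    (p : ℤ) ^ padicValNat p n.factorial ∣ a n ∧
      (a n ≠ 0 → n - (Nat.digits p n).sum ≤ (p - 1) * padicValInt p (a n)) := by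
  haveI := Fact.mk hp
  have main : (p : ℤ) ^ padicValNat p n.factorial ∣ a n := by
    set e := padicValNat p n.factorial
    haveI : NeZero (p ^ e) := ⟨pow_ne_zero _ hp.ne_zero⟩
    obtain ⟨r, hr⟩ := hensel p hp h4 e
    have hr' : (r : ZMod (p ^ e)) * r = -1 := by
      have : ((r ^ 2 + 1 : ℤ) : ZMod (p ^ e)) = 0 := by
        rw [ZMod.intCast_zmod_eq_zero_iff_dvd]
        push_cast
        exact (pow_dvd_pow _ (Nat.le_succ e)).trans hr
      push_cast at this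
      linear_combination this
    have h1 := lift_zero (p ^ e) n pow_padicValNat_dvd r hr'
    have h2 := lift_zero (p ^ e) n pow_padicValNat_dvd (-r) (by rw [neg_mul_neg, hr'])
    have h3 : ((2 * a n : ℤ) : ZMod (p ^ e)) = 0 := by
      push_cast
      linear_combination (-(r : ZMod (p ^ e))) * (h1 - h2) + 2 * (a n : ZMod (p ^ e)) * hr'
    rw [ZMod.intCast_zmod_eq_zero_iff_dvd] at h3
    push_cast at h3
    refine IsCoprime.dvd_of_dvd_mul_left (IsCoprime.pow_left ?_) h3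
    exact ⟨1, -(p / 2), by omega⟩
  refine ⟨main, fun h => ?_⟩
  rw [← sub_one_mul_padicValNat_factorial]
  exact Nat.mul_le_mul_left _ (((padicValInt_dvd_iff _ _).1 main).resolve_left h)

end Pool.Agent.Results.MP_054fa1_nt.Lower
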